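import Pool.Agent.Lib.MP_222b14_al.LNotTame
import Pool.Agent.Lib.MP_222b14_al.TameCrit
import Pool.Agent.Lib.MP_222b14_al.FP

/-!
# Tameness in a direct product is not equivalent to tameness in the factors

There are groups `H`, `K` and a subgroup `S` of `H × K`, all finitely presented, such that `S ∩ H`
and `S ∩ K` are finitely generated, `S` is tame in `H × K` and `S ∩ K` is tame in `K`, but `S ∩ H`
is not tame in `H`.
-/

namespace Pool.Agent.Results.MP_222b14_al.NotEquivalent

open Tame222b14

theorem result : ∃ (H K : Type) (iH : Group H) (iK : Group K) (S : Subgroup (H × K)),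
    Group.IsFinitelyPresented H ∧ Group.IsFinitelyPresented K ∧
    Group.IsFinitelyPresented (H × K) ∧ Group.IsFinitelyPresented S ∧
    (S.comap (MonoidHom.inl H K)).FG ∧ (S.comap (MonoidHom.inr H K)).FG ∧
    Nonempty (FinPres H) ∧ Nonempty (FinPres (H × K)) ∧
    (∀ P : FinPres (H × K), P.Tame S) ∧
    (∀ P : FinPres K, P.Tame (S.comap (MonoidHom.inr H K))) ∧
    (∀ P : FinPres H, ¬ P.Tame (S.comap (MonoidHom.inl H K))) := by
  have hL := Ls_fp
  have hprod : Group.IsFinitelyPresented (Hg × Multiplicative ℤ) := prod_fp Hg (Multiplicative ℤ)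
  have hinj : Function.Injective (MonoidHom.inl Hg (Multiplicative ℤ)) := by
    intro a b hab
    simpa using hab
  have hcomap : (Ls.map (MonoidHom.inl Hg (Multiplicative ℤ))).comap
      (MonoidHom.inl Hg (Multiplicative ℤ)) = Ls :=
    Subgroup.comap_map_eq_self_of_injective hinj Ls
  have hcomap2 : (Ls.map (MonoidHom.inl Hg (Multiplicative ℤ))).comap
      (MonoidHom.inr Hg (Multiplicative ℤ)) = ⊥ := by
    rw [eq_bot_iff]
    rintro k ⟨g, _, hg⟩
    have h1 := congrArg Prod.snd hg
    exact h1.symm
  refine ⟨Hg, Multiplicative ℤ, inferInstance, inferInstance,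
    Ls.map (MonoidHom.inl Hg (Multiplicative ℤ)), inferInstance, inferInstance, hprod, ?_, ?_, ?_,
    exists_finPres Hg, exists_finPres _, ?_, ?_, ?_⟩
  · exact Group.IsFinitelyPresented.equiv (Ls.equivMapOfInjective _ hinj)
  · rw [hcomap]
    exact Ls_fg
  · rw [hcomap2]
    exact Subgroup.FG.bot
  · intro P
    apply tame_of_central P _ (fg_map Ls Ls_fg _) (MonoidHom.snd Hg (Multiplicative ℤ))
      (1, Multiplicative.ofAdd 1)
    · rintro ⟨g, k⟩
      exact Prod.ext (by simp) (mul_comm _ _)
    · rfl
    · rintro _ ⟨g, _, rfl⟩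
      rfl
  · intro P
    rw [hcomap2]
    apply tame_of_central P _ Subgroup.FG.bot (MonoidHom.id (Multiplicative ℤ))
      (Multiplicative.ofAdd 1)
    · intro g
      exact mul_comm _ _
    · rfl
    · exact bot_le
  · intro P
    rw [hcomap]
    exact L_not_tame P

end Pool.Agent.Results.MP_222b14_al.NotEquivalent
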